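import Mathlib
import Pool.Agent.Helper212.Iso
import Pool.Agent.Results.MP_1b52a3_lc.NoBorelReduction
import Pool.Agent.W922.MD.Weak

/-!
# No Borel criterion for conjugacy of measure distal transformations
-/

set_option autoImplicit false

open Filter Topology Set MeasureTheory

namespace Pool.Agent.Results.MP_78c86a_lc.NoBorelCriterion

open Pool.Agent.Results.MP_1b52a3_lc.NoBorelReduction (PreAut Aut mk_eq_mk_iff)
open Pool.Agent.W922.MD (MeasureDistal)

/-- Lebesgue measure on `[0,1]`. -/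
noncomputable abbrev lam : Measure unitInterval := volume

/-- The space `EMPT` of ergodic Lebesgue measure preserving transformations of `[0,1]`, identified
modulo null sets, with the weak topology. -/
abbrev EMPT : Type :=
  {a : Aut lam // ∃ T : PreAut lam, QuotientGroup.mk T = a ∧ Ergodic (T.1 : unitInterval → unitInterval) lam}

/-- The set `MD` of ergodic measure distal transformations. -/
def MD (a : EMPT) : Prop :=
  ∃ T : PreAut lam, QuotientGroup.mk T = a.1 ∧ MeasureDistal lam (T.1 : unitInterval → unitInterval)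

/-- Measure conjugacy. -/
def Conj (a b : EMPT) : Prop := ∃ U : Aut lam, a.1 = U * b.1 * U⁻¹

/-! ### The proof -/

open Pool.Agent.W922.Dis
open Pool.Agent.W922.MD (continuous_meas_Fm mu mp_Fm mp_cjH ergodic_Fm distal branch_of_conj)

section

variable (e : W922.Dis.X ≃ᵐ unitInterval) (he : MeasurePreserving e mu lam)

/-- the homeomorphisms as measurable equivalences -/
noncomputable def FE (τ : List ℕ → Bool) (b : ℤ) : W922.Dis.X ≃ᵐ W922.Dis.X :=
  (Fe τ b).toMeasurableEquiv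

theorem FE_apply (τ : List ℕ → Bool) (b : ℤ) (x : W922.Dis.X) : FE τ b x = Fm τ b x := rfl

/-- transport -/
noncomputable def tp (F : W922.Dis.X ≃ᵐ W922.Dis.X) (hF : MeasurePreserving F mu mu) :
    PreAut lam :=
  ⟨((e.symm.trans F).trans e).toEquiv,
    ⟨he.comp (hF.comp (MeasurePreserving.symm e he)),
      he.comp ((MeasurePreserving.symm F hF).comp (MeasurePreserving.symm e he))⟩⟩

theorem tp_apply (F : W922.Dis.X ≃ᵐ W922.Dis.X) (hF : MeasurePreserving F mu mu)
    (x : unitInterval) : (tp e he F hF).1 x = e (F (e.symm x)) := rfl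

/-- the transformation -/
noncomputable def PA (τ : List ℕ → Bool) (b : ℤ) : PreAut lam := tp e he (FE τ b) (mp_Fm τ b)

theorem PA_apply (τ : List ℕ → Bool) (b : ℤ) (x : unitInterval) :
    (PA e he τ b).1 x = e (Fm τ b (e.symm x)) := rfl

theorem continuous_PA (b : ℤ) : Continuous fun τ => PA e he τ b := by
  rw [continuous_induced_rng]
  refine continuous_pi fun p => ?_
  obtain ⟨⟨A, hA⟩, ⟨B, hB⟩⟩ := p
  have h1 := continuous_meas_Fm b (e ⁻¹' A) (e ⁻¹' B) (e.measurable hA)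
  have h2 : ∀ τ, lam.real ((PA e he τ b).1 ⁻¹' A ∩ B)
      = mu.real ((Fm τ b) ⁻¹' (e ⁻¹' A) ∩ e ⁻¹' B) := by
    intro τ
    have h3 : e ⁻¹' ((PA e he τ b).1 ⁻¹' A ∩ B) = (Fm τ b) ⁻¹' (e ⁻¹' A) ∩ e ⁻¹' B := by
      ext x
      show (e (Fm τ b (e.symm (e x))) ∈ A ∧ e x ∈ B) ↔ (e (Fm τ b x) ∈ A ∧ e x ∈ B)
      rw [e.symm_apply_apply]
    have h4 : MeasurableSet ((PA e he τ b).1 ⁻¹' A ∩ B) :=
      ((PA e he τ b).2.1.measurable hA).inter hB
    rw [← h3, measureReal_def, measureReal_def, he.measure_preimage h4.nullMeasurableSet]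
  exact h1.congr fun τ => (h2 τ).symm

theorem PA_ergodic (τ : List ℕ → Bool) (b : ℤ) :
    Ergodic ((PA e he τ b).1 : unitInterval → unitInterval) lam :=
  (he.ergodic_conjugate_iff (f := Fm τ b)).2 (ergodic_Fm τ b)

theorem PA_distal (τ : List ℕ → Bool) (b : ℤ) :
    MeasureDistal lam ((PA e he τ b).1 : unitInterval → unitInterval) :=
  (distal τ b).conj e he

/-- the points of `EMPT` -/
noncomputable def pt (τ : List ℕ → Bool) (b : ℤ) : EMPT :=
  ⟨QuotientGroup.mk (PA e he τ b), PA e he τ b, rfl, PA_ergodic e he τ b⟩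

theorem pt_MD (τ : List ℕ → Bool) (b : ℤ) : MD (pt e he τ b) := ⟨_, rfl, PA_distal e he τ b⟩

theorem continuous_pt (b : ℤ) : Continuous fun τ => pt e he τ b :=
  Continuous.subtype_mk (continuous_quotient_mk'.comp (continuous_PA e he b)) _

theorem conj_iff (τ : List ℕ → Bool) : Conj (pt e he τ 1) (pt e he τ 0) ↔
    ∃ h : W922.Dis.X ≃ₜ W922.Dis.X, ∀ x, h (Fm τ 1 x) = Fm τ 0 (h x) := by
  rw [W922.Dis.conj_iff]
  constructor
  · rintro ⟨U, hU⟩
    obtain ⟨W, rfl⟩ := QuotientGroup.mk_surjective U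
    have hU' : (QuotientGroup.mk (PA e he τ 1) : Aut lam) =
      QuotientGroup.mk W * QuotientGroup.mk (PA e he τ 0) * (QuotientGroup.mk W)⁻¹ := hU
    rw [eq_mul_inv_iff_mul_eq] at hU'
    have hU2 : (QuotientGroup.mk W : Aut lam)⁻¹ * QuotientGroup.mk (PA e he τ 1) =
        QuotientGroup.mk (PA e he τ 0) * (QuotientGroup.mk W)⁻¹ := by
      rw [inv_mul_eq_iff_eq_mul, ← mul_assoc, eq_mul_inv_iff_mul_eq]
      exact hU'
    have h1 : (QuotientGroup.mk (W⁻¹ * PA e he τ 1) : Aut lam) =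
      QuotientGroup.mk (PA e he τ 0 * W⁻¹) := hU2
    rw [mk_eq_mk_iff] at h1
    have h2 : ∀ᵐ x ∂lam, (W⁻¹).1 (e (Fm τ 1 (e.symm x))) = e (Fm τ 0 (e.symm ((W⁻¹).1 x))) := h1
    have h3 := he.quasiMeasurePreserving.ae h2
    refine branch_of_conj (h := fun x => e.symm ((W⁻¹).1 (e x)))
      (e.symm.measurable.comp ((W⁻¹).2.1.measurable.comp e.measurable)) ?_
    filter_upwards [h3] with x hx
    rw [e.symm_apply_apply] at hx
    show e.symm ((W⁻¹).1 (e (Fm τ 1 x))) = Fm τ 0 (e.symm ((W⁻¹).1 (e x)))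
    rw [hx, e.symm_apply_apply]
  · rintro ⟨b, hb⟩
    have hs := sol_of_branch hb
    let f := solf b
    let UE : W922.Dis.X ≃ᵐ W922.Dis.X := (cjH f).toMeasurableEquiv
    have hU : MeasurePreserving UE mu mu := mp_cjH f
    refine ⟨(QuotientGroup.mk (tp e he UE hU) : Aut lam)⁻¹, ?_⟩
    rw [inv_inv, eq_comm, mul_assoc, inv_mul_eq_iff_eq_mul]
    refine congrArg QuotientGroup.mk (Subtype.ext (Equiv.ext fun x => ?_))
    show e (Fm τ 0 (e.symm (e (cjH f (e.symm x))))) = e (cjH f (e.symm (e (Fm τ 1 (e.symm x)))))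
    rw [e.symm_apply_apply, e.symm_apply_apply, conj_of_sol hs]

end

/-- No Borel subset of `EMPT × EMPT` agrees on the ergodic measure distal transformations with
measure conjugacy. -/
theorem result : ¬ ∃ B : Set (EMPT × EMPT), @MeasurableSet (EMPT × EMPT) (borel (EMPT × EMPT)) B ∧
    ∀ S T : EMPT, MD S → MD T → ((S, T) ∈ B ↔ Conj S T) := by
  rintro ⟨B, hB, h⟩
  obtain ⟨e, he⟩ := Helper212.Sq.exists_mp_equiv mu
  let Φ : (List ℕ → Bool) → EMPT × EMPT := fun τ => (pt e he τ 1, pt e he τ 0)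
  have hΦ : Continuous Φ := (continuous_pt e he 1).prodMk (continuous_pt e he 0)
  have h1 : @MeasurableSet (List ℕ → Bool) (borel (List ℕ → Bool)) (Φ ⁻¹' B) := by
    let _ : MeasurableSpace (List ℕ → Bool) := borel _
    have _ : BorelSpace (List ℕ → Bool) := ⟨rfl⟩
    let _ : MeasurableSpace (EMPT × EMPT) := borel _
    have _ : BorelSpace (EMPT × EMPT) := ⟨rfl⟩
    exact hΦ.measurable hB
  refine W922.Dis.not_borel ?_
  convert h1 using 1
  ext τ
  show _ ↔ Φ τ ∈ B
  rw [h _ _ (pt_MD e he τ 1) (pt_MD e he τ 0), conj_iff]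
  rfl

end Pool.Agent.Results.MP_78c86a_lc.NoBorelCriterion
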